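import Mathlib

set_option autoImplicit false

open Filter Topology Set

namespace Pool.Agent.Lib.MP_a66ead_an

/-- Helly's lemma: a bidual element agrees on finitely many functionals with a vector of
almost the same norm. -/
theorem helly {E : Type*} [NormedAddCommGroup E] [NormedSpace ℝ E] {ι : Type*} [Fintype ι]
    (Φ : StrongDual ℝ (StrongDual ℝ E)) (f : ι → StrongDual ℝ E) :
    ∃ e : E, ‖e‖ ≤ ‖Φ‖ + 1 ∧ ∀ i, f i e = Φ (f i) := by
  classical
  let A : E →L[ℝ] (ι → ℝ) := ContinuousLinearMap.pi f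
  let c : ι → ℝ := fun i => Φ (f i)
  have key : ∀ α : (ι → ℝ) →L[ℝ] ℝ, Φ (α.comp A) = α c := by
    intro α
    have h0 : ∀ v : ι → ℝ, α v = ∑ i, v i * α (Pi.single i 1) := by
      intro v
      conv_lhs => rw [pi_eq_sum_univ' v]
      rw [map_sum]
      refine Finset.sum_congr rfl fun i _ => ?_
      rw [map_smul, smul_eq_mul]
    have h1 : α.comp A = ∑ i, α (Pi.single i 1) • f i := by
      ext e
      rw [ContinuousLinearMap.comp_apply, h0]
      simp [A, mul_comm]
    rw [h1, map_sum, h0 c]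
    refine Finset.sum_congr rfl fun i _ => ?_
    rw [map_smul, smul_eq_mul, mul_comm]
  let R : Submodule ℝ (ι → ℝ) := LinearMap.range (A : E →ₗ[ℝ] (ι → ℝ))
  have hcR : c ∈ R := by
    by_contra hc
    obtain ⟨α, hα1, hα2⟩ := Submodule.exists_dual_map_eq_bot_of_notMem hc inferInstance
    have hz : (LinearMap.toContinuousLinearMap α).comp A = 0 := by
      ext e
      have : α (A e) ∈ R.map α := Submodule.mem_map_of_mem ⟨e, rfl⟩
      rw [hα2] at this
      simpa using this
    have := key (LinearMap.toContinuousLinearMap α)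
    rw [hz, map_zero] at this
    exact hα1 (by simpa using this.symm)
  set ρ : ℝ := ‖Φ‖ + 1 with hρ
  have hρ0 : 0 < ρ := by positivity
  let A' : E →ₗ[ℝ] R := (A : E →ₗ[ℝ] (ι → ℝ)).rangeRestrict
  have hopen : IsOpenMap A' :=
    LinearMap.isOpenMap_of_finiteDimensional A' (LinearMap.surjective_rangeRestrict _)
  by_contra hcon
  have hnot : (⟨c, hcR⟩ : R) ∉ A' '' Metric.ball (0 : E) ρ := by
    rintro ⟨e, he, he'⟩
    apply hcon
    refine ⟨e, (mem_ball_zero_iff.1 he).le, fun i => ?_⟩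
    have := congrArg (fun v : R => (v : ι → ℝ) i) he'
    exact this
  obtain ⟨β, hβ⟩ := geometric_hahn_banach_open_point
    ((convex_ball (0 : E) ρ).linear_image A') (hopen _ Metric.isOpen_ball) hnot
  obtain ⟨α, hα, -⟩ := exists_extension_norm_eq R β
  set g : StrongDual ℝ E := α.comp A with hg
  have hlt : ∀ e : E, ‖e‖ < ρ → g e < ‖Φ‖ * ‖g‖ := by
    intro e he
    have h1 := hβ (A' e) ⟨e, mem_ball_zero_iff.2 he, rfl⟩
    rw [← hα, ← hα] at h1
    have h2 : g e = α (A' e : R) := rfl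
    have h3 : α ((⟨c, hcR⟩ : R) : ι → ℝ) = Φ g := (key α).symm
    have h4 : Φ g ≤ ‖Φ‖ * ‖g‖ := (le_abs_self _).trans (Φ.le_opNorm g)
    linarith
  have hg0 : 0 < ‖g‖ := by
    rcases (norm_nonneg g).eq_or_lt with h | h
    · have := hlt 0 (by simpa using hρ0)
      rw [← h] at this
      simp at this
    · exact h
  have hr : ‖Φ‖ * ‖g‖ / ρ < ‖g‖ := by
    rw [div_lt_iff₀ hρ0, hρ]
    nlinarith
  obtain ⟨x, hx1, hx2⟩ := g.exists_lt_apply_of_lt_opNorm hr
  rw [div_lt_iff₀ hρ0] at hx2
  have hn : ‖ρ • x‖ < ρ := by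
    rw [norm_smul, Real.norm_eq_abs, abs_of_pos hρ0]
    nlinarith
  have h1 := hlt (ρ • x) hn
  have h2 := hlt (-(ρ • x)) (by simpa using hn)
  rw [map_neg, map_smul, smul_eq_mul] at h2
  rw [map_smul, smul_eq_mul] at h1
  rw [Real.norm_eq_abs] at hx2
  rcases abs_cases (g x) with h | h <;> rw [h.1] at hx2 <;> nlinarith

/-- weak-star limits along an ultrafilter -/
theorem exists_wlim {E : Type*} [NormedAddCommGroup E] [NormedSpace ℝ E] {κ : Type*}
    (U : Ultrafilter κ) (w : κ → StrongDual ℝ E) (c : ℝ) (hw : ∀ k, ‖w k‖ ≤ c) :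
    ∃ v : StrongDual ℝ E, ‖v‖ ≤ c ∧ ∀ e, Tendsto (fun k => w k e) U (𝓝 (v e)) := by
  have hK := WeakDual.isCompact_closedBall (𝕜 := ℝ) (0 : StrongDual ℝ E) c
  let w' : κ → WeakDual ℝ E := fun k => StrongDual.toWeakDual (w k)
  have hmem : (U.map w' : Filter (WeakDual ℝ E)) ≤
      𝓟 (WeakDual.toStrongDual ⁻¹' Metric.closedBall (0 : StrongDual ℝ E) c) := by
    rw [le_principal_iff]
    refine Filter.mem_map.2 (Filter.Eventually.of_forall fun k => ?_)
    simpa [w'] using hw k
  obtain ⟨v, hv, hle⟩ := hK.ultrafilter_le_nhds (U.map w') hmem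
  refine ⟨WeakDual.toStrongDual v, by simpa using hv, fun e => ?_⟩
  have ht : Tendsto w' U (𝓝 v) := hle
  exact ((WeakDual.eval_continuous e).tendsto v).comp ht

/-- auxiliary recursion -/
noncomputable def seqAux {α : Type*} (d : α) (F : ℕ → (ℕ → α) → α) : ℕ → α
  | n => F n fun m => if _hm : m < n then seqAux d F m else d
  termination_by n => n

/-- building a sequence by strong recursion -/
theorem exists_seq_rec {α : Type*} [Nonempty α] (P : ℕ → α → Prop) (r : ℕ → α → ℕ → α → Prop)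
    (h : ∀ (n : ℕ) (f : ℕ → α), ∃ y, P n y ∧ ∀ m < n, r m (f m) n y) :
    ∃ f : ℕ → α, (∀ n, P n (f n)) ∧ ∀ m n, m < n → r m (f m) n (f n) := by
  classical
  choose F hF using h
  let d : α := Classical.arbitrary α
  let f : ℕ → α := seqAux d F
  have hf : ∀ n, f n = F n fun m => if m < n then f m else d := by
    intro n
    have : f n = F n fun m => if _hm : m < n then f m else d := by
      show seqAux d F n = _
      rw [seqAux]
    rw [this]
    simp
  refine ⟨f, fun n => ?_, fun m n hmn => ?_⟩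
  · rw [hf n]; exact (hF n _).1
  · have := (hF n fun m => if m < n then f m else d).2 m hmn
    rw [← hf n] at this
    simpa [hmn] using this

end Pool.Agent.Lib.MP_a66ead_an
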