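import Pool.Agent.Lib.MP_a66ead_an.Helly

set_option autoImplicit false
set_option maxSynthPendingDepth 3

open Filter Topology Set

namespace Pool.Agent.Lib.MP_a66ead_an.K

variable {𝕜 : Type*} [RCLike 𝕜]

/-- An infinite-dimensional subspace contains a bounded vector far from a given
finite-dimensional subspace. -/
theorem far_vector {E : Type*} [NormedAddCommGroup E] [NormedSpace 𝕜 E] (W F : Submodule 𝕜 E)
    (hW : ¬ FiniteDimensional 𝕜 W) [FiniteDimensional 𝕜 F] :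
    ∃ w ∈ W, ‖w‖ ≤ 3 ∧ ∀ v ∈ F, 1 / 4 ≤ ‖w - v‖ := by
  obtain ⟨f, hf1, hf2⟩ := exists_seq_norm_le_one_le_norm_sub' (𝕜 := 𝕜) (E := W) (c := 2)
    (by rw [RCLike.norm_two]; norm_num) (R := 3) (by rw [RCLike.norm_two]; norm_num) hW
  by_contra hcon
  push Not at hcon
  have hv : ∀ n, ∃ v : F, ‖(f n : E) - v‖ < 1 / 4 := by
    intro n
    obtain ⟨v, hv, hv'⟩ := hcon (f n) (f n).2 (hf1 n)
    exact ⟨⟨v, hv⟩, hv'⟩
  choose v hv using hv
  have hb : ∀ n, v n ∈ Metric.closedBall (0 : F) 4 := by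
    intro n
    rw [mem_closedBall_zero_iff]
    have h1 : ‖(f n : E)‖ ≤ 3 := hf1 n
    have h2 : ‖(v n : E)‖ ≤ ‖(f n : E)‖ + ‖(f n : E) - v n‖ := by
      have := norm_sub_le (f n : E) ((f n : E) - v n)
      simpa using this
    have h3 := hv n
    have h4 : ‖v n‖ = ‖(v n : E)‖ := rfl
    linarith
  have : ProperSpace F := FiniteDimensional.proper_rclike 𝕜 F
  obtain ⟨a, -, φ, hφ, hlim⟩ := (isCompact_closedBall (0 : F) 4).tendsto_subseq hb
  obtain ⟨N, hN⟩ := Metric.tendsto_atTop.1 hlim (1 / 4) (by norm_num)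
  have h1 := hN N le_rfl
  have h2 := hN (N + 1) (Nat.le_succ N)
  have hne : φ N ≠ φ (N + 1) := (hφ (Nat.lt_succ_self N)).ne
  have h3 : 1 ≤ ‖(f (φ N) : E) - f (φ (N + 1))‖ := hf2 hne
  rw [dist_eq_norm] at h1 h2
  have h1' : ‖(v (φ N) : E) - a‖ < 1 / 4 := h1
  have h2' : ‖(v (φ (N + 1)) : E) - a‖ < 1 / 4 := h2
  have h4 := hv (φ N)
  have h5 := hv (φ (N + 1))
  have h6 : (f (φ N) : E) - f (φ (N + 1)) = ((f (φ N) : E) - v (φ N)) + ((v (φ N) : E) - a)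
      - ((v (φ (N + 1)) : E) - a) - ((f (φ (N + 1)) : E) - v (φ (N + 1))) := by abel
  have h7 := norm_sub_le (((f (φ N) : E) - v (φ N)) + ((v (φ N) : E) - a)
      - ((v (φ (N + 1)) : E) - a)) ((f (φ (N + 1)) : E) - v (φ (N + 1)))
  have h8 := norm_sub_le (((f (φ N) : E) - v (φ N)) + ((v (φ N) : E) - a))
      ((v (φ (N + 1)) : E) - a)
  have h9 := norm_add_le ((f (φ N) : E) - v (φ N)) ((v (φ N) : E) - a)
  rw [h6] at h3
  linarith

/-- composition with a quotient map does not increase the norm -/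
theorem norm_comp_mkQL_le {E : Type*} [NormedAddCommGroup E] [NormedSpace 𝕜 E] (F : Submodule 𝕜 E)
    (g : StrongDual 𝕜 (E ⧸ F)) : ‖g.comp F.mkQL‖ ≤ ‖g‖ := by
  refine ContinuousLinearMap.opNorm_le_bound _ g.opNorm_nonneg fun x => ?_
  refine (g.le_opNorm _).trans ?_
  exact mul_le_mul_of_nonneg_left (Submodule.Quotient.norm_mk_le F x) g.opNorm_nonneg

/-- Helly's lemma: a bidual element agrees on finitely many functionals with a vector of
almost the same norm. -/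
theorem helly {E : Type*} [NormedAddCommGroup E] [NormedSpace 𝕜 E] {ι : Type*} [Fintype ι]
    (Φ : StrongDual 𝕜 (StrongDual 𝕜 E)) (f : ι → StrongDual 𝕜 E) :
    ∃ e : E, ‖e‖ ≤ ‖Φ‖ + 1 ∧ ∀ i, f i e = Φ (f i) := by
  classical
  let A : E →L[𝕜] (ι → 𝕜) := ContinuousLinearMap.pi f
  let F : Submodule 𝕜 E := LinearMap.ker (A : E →ₗ[𝕜] (ι → 𝕜))
  have hF : IsClosed (F : Set E) := A.isClosed_ker
  have : FiniteDimensional 𝕜 (E ⧸ F) :=
    LinearEquiv.finiteDimensional (LinearMap.quotKerEquivRange (A : E →ₗ[𝕜] (ι → 𝕜))).symm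
  let Ψ : Module.Dual 𝕜 (Module.Dual 𝕜 (E ⧸ F)) :=
    { toFun := fun g => Φ ((LinearMap.toContinuousLinearMap g).comp F.mkQL)
      map_add' := fun g g' => by
        rw [map_add, ContinuousLinearMap.add_comp, map_add]
      map_smul' := fun c g => by
        rw [map_smul, ContinuousLinearMap.smul_comp, map_smul, RingHom.id_apply] }
  let q : E ⧸ F := (Module.evalEquiv 𝕜 (E ⧸ F)).symm Ψ
  have hq : ∀ g : Module.Dual 𝕜 (E ⧸ F),
      g q = Φ ((LinearMap.toContinuousLinearMap g).comp F.mkQL) :=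
    fun g => Module.apply_evalEquiv_symm_apply 𝕜 (E ⧸ F) g Ψ
  have hn : ‖q‖ ≤ ‖Φ‖ := by
    refine NormedSpace.norm_le_dual_bound 𝕜 q (norm_nonneg _) fun g => ?_
    have h1 : g q = Φ (g.comp F.mkQL) := hq g.toLinearMap
    rw [h1]
    exact (Φ.le_opNorm _).trans (mul_le_mul_of_nonneg_left (norm_comp_mkQL_le F g) (norm_nonneg _))
  obtain ⟨e, he, he'⟩ := Submodule.Quotient.norm_mk_lt q one_pos
  refine ⟨e, by linarith, fun i => ?_⟩
  have hle : F ≤ LinearMap.ker (f i).toLinearMap := fun x hx => congrFun (LinearMap.mem_ker.1 hx) i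
  have h1 := hq (F.liftQ (f i).toLinearMap hle)
  rw [← he] at h1
  refine h1.trans ?_
  congr 1

/-- weak-star limits along an ultrafilter -/
theorem exists_wlim {E : Type*} [NormedAddCommGroup E] [NormedSpace 𝕜 E] {κ : Type*}
    (U : Ultrafilter κ) (w : κ → StrongDual 𝕜 E) (c : ℝ) (hw : ∀ k, ‖w k‖ ≤ c) :
    ∃ v : StrongDual 𝕜 E, ‖v‖ ≤ c ∧ ∀ e, Tendsto (fun k => w k e) U (𝓝 (v e)) := by
  have hK := WeakDual.isCompact_closedBall (𝕜 := 𝕜) (0 : StrongDual 𝕜 E) c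
  let w' : κ → WeakDual 𝕜 E := fun k => StrongDual.toWeakDual (w k)
  have hmem : (U.map w' : Filter (WeakDual 𝕜 E)) ≤
      𝓟 (WeakDual.toStrongDual ⁻¹' Metric.closedBall (0 : StrongDual 𝕜 E) c) := by
    rw [le_principal_iff]
    refine Filter.mem_map.2 (Filter.Eventually.of_forall fun k => ?_)
    simpa [w'] using hw k
  obtain ⟨v, hv, hle⟩ := hK.ultrafilter_le_nhds (U.map w') hmem
  refine ⟨WeakDual.toStrongDual v, by simpa using hv, fun e => ?_⟩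
  have ht : Tendsto w' U (𝓝 v) := hle
  exact ((WeakDual.eval_continuous e).tendsto v).comp ht

/-- A functional vanishing on a subspace and equal to one on a far vector. -/
theorem far_functional {E : Type*} [NormedAddCommGroup E] [NormedSpace 𝕜 E] (F : Submodule 𝕜 E)
    (w : E) (hw : ∀ v ∈ F, 1 / 4 ≤ ‖w - v‖) :
    ∃ ψ : StrongDual 𝕜 E, ‖ψ‖ ≤ 4 ∧ ψ w = 1 ∧ ∀ v ∈ F, ψ v = 0 := by
  set q : E ⧸ F := Submodule.Quotient.mk w with hq
  have hq4 : 1 / 4 ≤ ‖q‖ := by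
    by_contra hlt
    push Not at hlt
    obtain ⟨m, hm, hm'⟩ := Submodule.Quotient.norm_mk_lt q (sub_pos.2 hlt)
    have hmem : w - m ∈ F := (Submodule.Quotient.eq F).1 hm.symm
    have := hw _ hmem
    simp only [sub_sub_cancel] at this
    linarith
  have hq0 : 0 < ‖q‖ := by linarith
  obtain ⟨g, hg1, hg2⟩ := exists_dual_vector'' 𝕜 q
  refine ⟨((‖q‖ : ℝ) : 𝕜)⁻¹ • g.comp F.mkQL, ?_, ?_, ?_⟩
  · rw [norm_smul, norm_inv, RCLike.norm_ofReal, abs_norm]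
    have h1 := norm_comp_mkQL_le F g
    have h2 : ‖q‖⁻¹ ≤ 4 := by
      rw [inv_le_comm₀ hq0 (by norm_num)]
      linarith
    have h3 := norm_nonneg (g.comp F.mkQL)
    nlinarith
  · have : g (F.mkQL w) = ((‖q‖ : ℝ) : 𝕜) := hg2
    simp only [smul_apply, ContinuousLinearMap.comp_apply, this, smul_eq_mul]
    exact inv_mul_cancel₀ (RCLike.ofReal_ne_zero.2 hq0.ne')
  · intro v hv
    have : F.mkQL v = 0 := (Submodule.Quotient.mk_eq_zero F).2 hv
    simp only [smul_apply, ContinuousLinearMap.comp_apply, this, map_zero,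
      smul_zero]

/-- Bounded biorthogonal sequences in an infinite-dimensional normed space. -/
theorem exists_biorthogonal {E : Type*} [NormedAddCommGroup E] [NormedSpace 𝕜 E]
    (hE : ¬ FiniteDimensional 𝕜 E) :
    ∃ (e : ℕ → E) (ψ : ℕ → StrongDual 𝕜 E), (∀ i, ‖e i‖ ≤ 3) ∧ (∀ i, ‖ψ i‖ ≤ 4) ∧
      (∀ i, ψ i (e i) = 1) ∧ ∀ i j, i ≠ j → ψ i (e j) = 0 := by
  classical
  obtain ⟨f, hf1, hf2⟩ := exists_seq_rec (α := E × StrongDual 𝕜 E)
    (fun _ p => ‖p.1‖ ≤ 3 ∧ ‖p.2‖ ≤ 4 ∧ p.2 p.1 = 1)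
    (fun _ p _ q => p.2 q.1 = 0 ∧ q.2 p.1 = 0) (by
      intro n f
      let L : E →ₗ[𝕜] (Fin n → 𝕜) := LinearMap.pi fun i => ((f i).2 : E →ₗ[𝕜] 𝕜)
      have hW : ¬ FiniteDimensional 𝕜 (LinearMap.ker L) := by
        intro hfin
        apply hE
        have : FiniteDimensional 𝕜 (E ⧸ LinearMap.ker L) :=
          LinearEquiv.finiteDimensional (LinearMap.quotKerEquivRange L).symm
        exact Module.Finite.of_submodule_quotient (LinearMap.ker L)
      let F : Submodule 𝕜 E := Submodule.span 𝕜 (Set.range fun i : Fin n => (f i).1)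
      have : FiniteDimensional 𝕜 F := FiniteDimensional.span_of_finite 𝕜 (Set.finite_range _)
      obtain ⟨w, hw1, hw2, hw3⟩ := far_vector (LinearMap.ker L) F hW
      obtain ⟨ψ, h1, h2, h3⟩ := far_functional F w hw3
      refine ⟨(w, ψ), ⟨hw2, h1, h2⟩, fun m hm => ⟨?_, ?_⟩⟩
      · exact congrFun (LinearMap.mem_ker.1 hw1) ⟨m, hm⟩
      · exact h3 _ (Submodule.subset_span ⟨⟨m, hm⟩, rfl⟩))
  refine ⟨fun i => (f i).1, fun i => (f i).2, fun i => (hf1 i).1, fun i => (hf1 i).2.1,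
    fun i => (hf1 i).2.2, fun i j hij => ?_⟩
  rcases lt_or_gt_of_ne hij with h | h
  · exact (hf2 i j h).1
  · exact (hf2 j i h).2

/-- Bounded biorthogonal sequences modulo a closed subspace of infinite codimension. -/
theorem exists_quot_system {Y : Type*} [NormedAddCommGroup Y] [NormedSpace 𝕜 Y]
    (S : Submodule 𝕜 Y) (hS : IsClosed (S : Set Y)) (hE : ¬ FiniteDimensional 𝕜 (Y ⧸ S)) :
    ∃ (y : ℕ → Y) (φ : ℕ → StrongDual 𝕜 Y),
      (∀ i, ‖y i‖ ≤ 4) ∧ (∀ i, ‖φ i‖ ≤ 4) ∧ (∀ i, φ i (y i) = 1) ∧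
      (∀ i j, i ≠ j → φ i (y j) = 0) ∧ ∀ i, ∀ x ∈ S, φ i x = 0 := by
  obtain ⟨e, ψ, he, hψ, h1, h2⟩ := exists_biorthogonal hE
  have hl : ∀ i, ∃ y : Y, Submodule.Quotient.mk y = e i ∧ ‖y‖ ≤ 4 := by
    intro i
    obtain ⟨m, hm, hm'⟩ := Submodule.Quotient.norm_mk_lt (e i) one_pos
    exact ⟨m, hm, by linarith [he i]⟩
  choose y hy1 hy2 using hl
  have hy3 : ∀ i, S.mkQL (y i) = e i := hy1
  refine ⟨y, fun i => (ψ i).comp S.mkQL, hy2,
    fun i => (norm_comp_mkQL_le S (ψ i)).trans (hψ i), fun i => ?_, fun i j hij => ?_,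
    fun i x hx => ?_⟩
  · rw [ContinuousLinearMap.comp_apply, hy3, h1]
  · rw [ContinuousLinearMap.comp_apply, hy3, h2 i j hij]
  · have : S.mkQL x = 0 := (Submodule.Quotient.mk_eq_zero S).2 hx
    rw [ContinuousLinearMap.comp_apply, this, map_zero]

/-- the range of a norm-preserving linear map from a complete space is closed -/
theorem isClosed_range_li {X Y : Type*} [NormedAddCommGroup X] [NormedSpace 𝕜 X] [CompleteSpace X]
    [NormedAddCommGroup Y] [NormedSpace 𝕜 Y] (J : X →ₗ[𝕜] Y) (hJ : ∀ x, ‖J x‖ = ‖x‖) :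
    IsClosed ((LinearMap.range J : Submodule 𝕜 Y) : Set Y) :=
  (LinearIsometry.mk J hJ).isometry.isClosedEmbedding.isClosed_range

theorem norm_incl {X : Type*} [NormedAddCommGroup X] [NormedSpace 𝕜 X] (x : X) :
   ‖NormedSpace.inclusionInDoubleDual 𝕜 X x‖ = ‖x‖ := by
  apply le_antisymm (NormedSpace.double_dual_bound 𝕜 X x)
  refine NormedSpace.norm_le_dual_bound 𝕜 x (ContinuousLinearMap.opNorm_nonneg _) fun f => ?_
  exact (NormedSpace.inclusionInDoubleDual 𝕜 X x).le_opNorm f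

/-- the system in a dual space, pulled down to the predual by Helly's lemma -/
theorem exists_dual_system {D X : Type*} [NormedAddCommGroup X] [NormedSpace 𝕜 X] [CompleteSpace X]
    [NormedAddCommGroup D] [NormedSpace 𝕜 D] (J : X →ₗ[𝕜] StrongDual 𝕜 D)
    (hJ : ∀ x, ‖J x‖ = ‖x‖) (hE : ¬ FiniteDimensional 𝕜 (StrongDual 𝕜 D ⧸ LinearMap.range J)) :
    ∃ y : ℕ → StrongDual 𝕜 D, (∀ i, ‖y i‖ ≤ 4) ∧
      ∀ (n i : ℕ) (x : ℕ → X) (j : ℕ → ℕ), ∃ g : D, ‖g‖ ≤ 5 ∧ (∀ k < n, J (x k) g = 0) ∧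
        ∀ k ≤ n, y (j k) g = if i = j k then 1 else 0 := by
  classical
  obtain ⟨y, φ, hy, hφ, h1, h2, h3⟩ := exists_quot_system _ (isClosed_range_li J hJ) hE
  have h12 : ∀ i j, φ i (y j) = if i = j then 1 else 0 := by
    intro i j
    split_ifs with h
    · rw [h, h1]
    · exact h2 i j h
  refine ⟨y, hy, fun n i x j => ?_⟩
  obtain ⟨g, hg1, hg2⟩ := helly (ι := Fin n ⊕ Fin (n + 1)) (φ i)
    (Sum.elim (fun k => J (x k)) fun k => y (j k))
  refine ⟨g, by linarith [hφ i], fun k hk => ?_, fun k hk => ?_⟩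
  · have e1 : J (x k) g = φ i (J (x k)) := hg2 (Sum.inl ⟨k, hk⟩)
    rw [e1, h3 i _ ⟨x k, rfl⟩]
  · have e2 : y (j k) g = φ i (y (j k)) := hg2 (Sum.inr ⟨k, by omega⟩)
    rw [e2, h12]

/-- A James-type triangular system with labels. -/
theorem exists_james_seq {X : Type*} [NormedAddCommGroup X] [NormedSpace 𝕜 X] [CompleteSpace X]
    (H : ¬ FiniteDimensional 𝕜 (StrongDual 𝕜 (StrongDual 𝕜 X) ⧸
      LinearMap.range (NormedSpace.inclusionInDoubleDual 𝕜 X).toLinearMap)) (ι : ℕ → ℕ) :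
    ∃ (z : ℕ → X) (h : ℕ → StrongDual 𝕜 X), (∀ n, ‖z n‖ ≤ 5) ∧ (∀ n, ‖h n‖ ≤ 5) ∧
      (∀ n, h n (z n) = 1) ∧ (∀ k n, k < n → h n (z k) = 0) ∧
      ∀ k K n, ι k = ι K → k ≤ K →
        h n (z k - z K) = if k < n ∧ n ≤ K ∧ ι n = ι k then -1 else 0 := by
  classical
  obtain ⟨y, hy, hstep⟩ := exists_dual_system (D := StrongDual 𝕜 X)
    (NormedSpace.inclusionInDoubleDual 𝕜 X).toLinearMap norm_incl H
  obtain ⟨f, hf1, hf2⟩ := exists_seq_rec (α := X × StrongDual 𝕜 X)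
    (fun n p => ‖p.1‖ ≤ 5 ∧ ‖p.2‖ ≤ 5 ∧ p.2 p.1 = 1 ∧ y (ι n) p.2 = 1)
    (fun m p n q => q.2 p.1 = 0 ∧ y (ι m) q.2 = (if ι n = ι m then 1 else 0) ∧
      p.2 q.1 = y (ι n) p.2) (by
      intro n f
      obtain ⟨g, hg1, hg2, hg3⟩ := hstep n (ι n) (fun k => (f k).1) ι
      obtain ⟨x, hx1, hx2⟩ := helly (ι := Option (Fin n)) (y (ι n))
        (fun o => o.elim g fun i => (f i).2)
      have e0 : y (ι n) g = 1 := by rw [hg3 n le_rfl, if_pos rfl]
      have b1 : ‖x‖ ≤ 5 := by linarith [hy (ι n)]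
      refine ⟨(x, g), ⟨b1, hg1, ?_, e0⟩, fun m hm => ⟨hg2 m hm, hg3 m hm.le, ?_⟩⟩
      · have e1 : g x = y (ι n) g := hx2 none
        show g x = 1
        rw [e1, e0]
      · exact hx2 (some ⟨m, hm⟩))
  refine ⟨fun n => (f n).1, fun n => (f n).2, fun n => (hf1 n).1, fun n => (hf1 n).2.1,
    fun n => (hf1 n).2.2.1, fun k n hkn => (hf2 k n hkn).1, ?_⟩
  intro k K n hι hkK
  rcases hkK.eq_or_lt with rfl | hlt
  · rw [sub_self, map_zero, if_neg (by omega)]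
  rw [map_sub]
  rcases lt_trichotomy n k with hn | hn | hn
  · rw [if_neg (by omega), (hf2 n k hn).2.2, (hf2 n K (hn.trans hlt)).2.2, hι, sub_self]
  · subst hn
    rw [if_neg (by omega), (hf1 n).2.2.1, (hf2 n K hlt).2.2, ← hι, (hf1 n).2.2.2, sub_self]
  · rw [(hf2 k n hn).1]
    rcases lt_trichotomy n K with hn' | hn' | hn'
    · rw [(hf2 n K hn').2.2, ← hι, (hf2 k n hn).2.1]
      by_cases hc : ι n = ι k
      · rw [if_pos hc, if_pos ⟨hn, hn'.le, hc⟩]; norm_num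
      · rw [if_neg hc, if_neg (fun h => hc h.2.2)]; norm_num
    · subst hn'
      rw [(hf1 n).2.2.1, if_pos ⟨hn, le_rfl, hι.symm⟩]; norm_num
    · rw [(hf2 K n hn').1, if_neg (by omega)]; norm_num

end Pool.Agent.Lib.MP_a66ead_an.K
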