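import Pool.Agent.Lib.MP_a66ead_an.SystemK

set_option autoImplicit false
set_option maxSynthPendingDepth 3

open Filter Topology Set

namespace Pool.Agent.Lib.MP_a66ead_an.K

variable {𝕜 : Type*} [RCLike 𝕜]

/-- The James-type system indexed by the nodes of the tree of finite sequences. -/
theorem exists_tree_system {X : Type*} [NormedAddCommGroup X] [NormedSpace 𝕜 X] [CompleteSpace X]
    (H : ¬ FiniteDimensional 𝕜 (StrongDual 𝕜 (StrongDual 𝕜 X) ⧸
      LinearMap.range (NormedSpace.inclusionInDoubleDual 𝕜 X).toLinearMap)) :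
    ∃ (z : List ℕ → ℕ → X) (h : List ℕ → ℕ → StrongDual 𝕜 X),
      (∀ s m, ‖z s m‖ ≤ 5) ∧ (∀ s m, ‖h s m‖ ≤ 10) ∧ (∀ s m, h s m (z s m) = 1) ∧
      (∀ s x, Tendsto (fun m => h s m x) (hyperfilter ℕ) (𝓝 0)) ∧
      ∀ t m, ∀ᶠ M in (hyperfilter ℕ : Filter ℕ), ∀ s m',
        ‖h s m' (z t m - z t M)‖ ≤ 1 ∧ (h s m' (z t m - z t M) ≠ 0 → s = t ∧ m' ≠ m) := by
  classical
  let e : (List ℕ × ℕ) ≃ ℕ := Denumerable.eqv (List ℕ × ℕ)
  let ι : ℕ → ℕ := fun n => Encodable.encode (e.symm n).1
  have hι : ∀ s m, ι (e (s, m)) = Encodable.encode s := by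
    intro s m
    simp [ι]
  obtain ⟨z, h, hz, hh, h1, h2, h3⟩ := exists_james_seq H ι
  have hinf : ∀ s, Tendsto (fun m => e (s, m)) (hyperfilter ℕ) atTop := by
    intro s
    have hinj : Function.Injective fun m => e (s, m) := by
      intro a b hab
      simpa using hab
    exact hinj.nat_tendsto_atTop.mono_left Nat.hyperfilter_le_atTop
  have hg : ∀ s : List ℕ, ∃ g : StrongDual 𝕜 X, ‖g‖ ≤ 5 ∧
      ∀ x, Tendsto (fun m => h (e (s, m)) x) (hyperfilter ℕ) (𝓝 (g x)) :=
    fun s => exists_wlim (hyperfilter ℕ) (fun m => h (e (s, m))) 5 fun m => hh _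
  choose g hg1 hg2 using hg
  have hgz : ∀ s k, g s (z k) = 0 := by
    intro s k
    refine tendsto_nhds_unique (hg2 s (z k)) ?_
    refine tendsto_const_nhds.congr' ?_
    filter_upwards [(hinf s).eventually (eventually_gt_atTop k)] with m hm
    exact (h2 k _ hm).symm
  refine ⟨fun s m => z (e (s, m)), fun s m => h (e (s, m)) - g s, fun s m => hz _,
    fun s m => ?_, fun s m => ?_, fun s x => ?_, fun t m => ?_⟩
  · have := norm_sub_le (h (e (s, m))) (g s)
    linarith [hh (e (s, m)), hg1 s]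
  · simp only [sub_apply, h1, hgz, sub_zero]
  · have := (hg2 s x).sub_const (g s x)
    simpa only [sub_apply, sub_self] using this
  · filter_upwards [(hinf t).eventually (eventually_ge_atTop (e (t, m)))] with M hM
    intro s m'
    have hval : (h (e (s, m')) - g s) (z (e (t, m)) - z (e (t, M))) =
        if e (t, m) < e (s, m') ∧ e (s, m') ≤ e (t, M) ∧ ι (e (s, m')) = ι (e (t, m))
          then -1 else 0 := by
      rw [sub_apply, h3 _ _ _ (by rw [hι, hι]) hM, map_sub, hgz, hgz]
      simp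
    rw [hval]
    split_ifs with hc
    · refine ⟨by simp, fun _ => ?_⟩
      obtain ⟨c1, -, c3⟩ := hc
      rw [hι, hι] at c3
      have hst : s = t := Encodable.encode_injective c3
      refine ⟨hst, ?_⟩
      rintro rfl
      rw [hst] at c1
      exact lt_irrefl _ c1
    · simp

/-- the sum of the absolute values of the functionals along a branch -/
noncomputable def branch {X : Type*} [NormedAddCommGroup X] [NormedSpace 𝕜 X]
    (h : List ℕ → ℕ → StrongDual 𝕜 X) : List ℕ → Seminorm 𝕜 X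
  | [] => 0
  | m :: s => (normSeminorm 𝕜 𝕜).comp (h s m).toLinearMap + branch h s

section

variable {X : Type*} [NormedAddCommGroup X] [NormedSpace 𝕜 X] (h : List ℕ → ℕ → StrongDual 𝕜 X)

theorem branch_nil (x : X) : branch h [] x = 0 := rfl

theorem branch_cons (m : ℕ) (s : List ℕ) (x : X) :
    branch h (m :: s) x = ‖h s m x‖ + branch h s x := rfl

theorem branch_le (hh : ∀ s m, ‖h s m‖ ≤ 10) (t : List ℕ) (x : X) :
    branch h t x ≤ 10 * t.length * ‖x‖ := by
  induction t with
  | nil => simp [branch_nil]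
  | cons m s ih =>
    rw [branch_cons, List.length_cons]
    have h1 : ‖h s m x‖ ≤ 10 * ‖x‖ :=
      ((h s m).le_opNorm x).trans (mul_le_mul_of_nonneg_right (hh s m) (norm_nonneg _))
    push_cast
    nlinarith

/-- the vector `x` is only seen by functionals leaving the branch `t` -/
def Adapted (t : List ℕ) (x : X) : Prop :=
  ∀ s m, ‖h s m x‖ ≤ 1 ∧ (h s m x ≠ 0 → s <:+ t ∧ s ≠ t ∧ ¬ (m :: s) <:+ t)

theorem Adapted.branch_le_one {t : List ℕ} {x : X} (hx : Adapted h t x) (u : List ℕ) :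
    branch h u x ≤ 1 ∧ (u <:+ t → branch h u x = 0) := by
  induction u with
  | nil => simp [branch_nil]
  | cons m s ih =>
    rw [branch_cons]
    by_cases h0 : h s m x = 0
    · rw [h0, norm_zero, zero_add]
      exact ⟨ih.1, fun hu => ih.2 ((List.suffix_cons m s).trans hu)⟩
    · obtain ⟨h1, -, h3⟩ := (hx s m).2 h0
      rw [ih.2 h1, add_zero]
      exact ⟨(hx s m).1, fun hu => absurd hu h3⟩

theorem Adapted.step {t : List ℕ} {x w : X} (hx : Adapted h t x) (m : ℕ) (σ : 𝕜) (hσ : ‖σ‖ = 1)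
    (hw : ∀ s m', ‖h s m' w‖ ≤ 1 ∧ (h s m' w ≠ 0 → s = t ∧ m' ≠ m)) :
    Adapted h (m :: t) (x + σ • w) := by
  intro s m'
  rw [map_add, map_smul, smul_eq_mul]
  by_cases hst : s = t
  · have h0 : h s m' x = 0 := by
      by_contra hne
      exact ((hx s m').2 hne).2.1 hst
    rw [h0, zero_add, norm_mul, hσ, one_mul]
    refine ⟨(hw s m').1, fun hne => ?_⟩
    have hne' : h s m' w ≠ 0 := fun h' => hne (by rw [h', mul_zero])
    obtain ⟨-, hm⟩ := (hw s m').2 hne'
    subst hst
    refine ⟨List.suffix_cons m s, (List.cons_ne_self m s).symm, fun hs => hm ?_⟩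
    have := hs.eq_of_length (by simp)
    exact (List.cons.inj this).1
  · have h0 : h s m' w = 0 := by
      by_contra hne
      exact hst ((hw s m').2 hne).1
    rw [h0, mul_zero, add_zero]
    refine ⟨(hx s m').1, fun hne => ?_⟩
    obtain ⟨h1, -, h3⟩ := (hx s m').2 hne
    refine ⟨h1.trans (List.suffix_cons m t), ?_, fun hs => ?_⟩
    · intro hs
      have := h1.length_le
      rw [hs] at this
      simp at this
    · rcases List.suffix_cons_iff.1 hs with h4 | h4
      · exact hst (List.cons.inj h4).2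
      · exact h3 h4

end

/-- The tree argument: a limit operation produces vectors of large branch norm as limits of
adapted vectors. -/
theorem tree_argument {X : Type*} [NormedAddCommGroup X] [NormedSpace 𝕜 X]
    (z : List ℕ → ℕ → X) (h : List ℕ → ℕ → StrongDual 𝕜 X)
    (hz : ∀ s m, ‖z s m‖ ≤ 5) (h1 : ∀ s m, h s m (z s m) = 1)
    (h2 : ∀ s x, Tendsto (fun m => h s m x) (hyperfilter ℕ) (𝓝 0))
    (h3 : ∀ t m, ∀ᶠ M in (hyperfilter ℕ : Filter ℕ), ∀ s m',
        ‖h s m' (z t m - z t M)‖ ≤ 1 ∧ (h s m' (z t m - z t M) ≠ 0 → s = t ∧ m' ≠ m))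
    (L : (ℕ → X) → X → Prop) (L0 : L (fun _ => 0) 0)
    (Lstep : ∀ (G w : ℕ → X) (g u v : X) (σ : 𝕜), L G g → L w u →
      L (fun M => G M + σ • (v - w M)) (g + σ • (v - u)))
    (Lex : ∀ s, ∃ u, L (z s) u) (k : ℕ) :
    ∃ (t : List ℕ) (G : ℕ → X) (g : X) (f : StrongDual 𝕜 X), t.length = k ∧ L G g ∧
      (∀ x, ‖f x‖ ≤ branch h t x) ∧ (k : ℝ) / 2 ≤ RCLike.re (f g) ∧ (∀ M, ‖G M‖ ≤ 10 * k) ∧
      ∀ᶠ M in (hyperfilter ℕ : Filter ℕ), Adapted h t (G M) := by
  induction k with
  | zero =>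
    refine ⟨[], fun _ => 0, 0, 0, rfl, L0, fun x => by simp [branch_nil], by simp, by simp, ?_⟩
    refine Eventually.of_forall fun M s m => ?_
    simp
  | succ k ih =>
    obtain ⟨t, G, g, f, ht, hG, hf, hfg, hGn, hGa⟩ := ih
    obtain ⟨u, hu⟩ := Lex t
    have e1 : ∀ᶠ m in (hyperfilter ℕ : Filter ℕ), ‖h t m g‖ < 1 / 4 := by
      have := (h2 t g).norm
      rw [norm_zero] at this
      exact this.eventually (gt_mem_nhds (by norm_num))
    have e2 : ∀ᶠ m in (hyperfilter ℕ : Filter ℕ), ‖h t m u‖ < 1 / 4 := by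
      have := (h2 t u).norm
      rw [norm_zero] at this
      exact this.eventually (gt_mem_nhds (by norm_num))
    obtain ⟨m, hm1, hm2⟩ := (e1.and e2).exists
    obtain ⟨σ, hσ, hσ2, hσ'⟩ : ∃ σ : 𝕜, ‖σ‖ = 1 ∧ σ * σ = 1 ∧
        0 ≤ RCLike.re (σ * f (z t m - u)) := by
      rcases le_total 0 (RCLike.re (f (z t m - u))) with hs | hs
      · exact ⟨1, by simp, by simp, by rwa [one_mul]⟩
      · exact ⟨-1, by simp, by simp, by rw [neg_one_mul, map_neg]; linarith⟩
    refine ⟨m :: t, fun M => G M + σ • (z t m - z t M), g + σ • (z t m - u), f + σ • h t m,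
      by simp [ht], Lstep G (z t) g u (z t m) σ hG hu, fun x => ?_, ?_, fun M => ?_, ?_⟩
    · rw [branch_cons, add_apply, smul_apply, smul_eq_mul]
      have := norm_add_le (f x) (σ * h t m x)
      rw [norm_mul, hσ, one_mul] at this
      linarith [hf x]
    · have e3 : (f + σ • h t m) (g + σ • (z t m - u)) =
          f g + σ * f (z t m - u) + σ * h t m g + σ * σ * (h t m (z t m) - h t m u) := by
        simp only [add_apply, smul_apply, smul_eq_mul, map_add, map_smul, map_sub]
        ring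
      rw [e3, hσ2, h1, one_mul, map_add, map_add, map_add, map_sub RCLike.re (1 : 𝕜),
        RCLike.one_re]
      have e4 : -(1 / 4) ≤ RCLike.re (σ * h t m g) := by
        have := (abs_le.1 (RCLike.abs_re_le_norm (σ * h t m g))).1
        rw [norm_mul, hσ, one_mul] at this
        linarith
      have e5 := RCLike.re_le_norm (h t m u)
      push_cast
      linarith
    · have e1 := norm_add_le (G M) (σ • (z t m - z t M))
      rw [norm_smul, hσ, one_mul] at e1
      have e2 := norm_sub_le (z t m) (z t M)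
      push_cast
      linarith [hGn M, hz t m, hz t M]
    · filter_upwards [hGa, h3 t m] with M hM1 hM2
      exact hM1.step h m σ hσ hM2

end Pool.Agent.Lib.MP_a66ead_an.K
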